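import Pool.Agent.Helper11.Coclass.Defs

set_option autoImplicit false

/-!
# Space groups with bounded point group and bounded dimension

Among infinitely many `p`-adic space groups with point groups of bounded order and of bounded
dimension two are isomorphic as topological groups.
-/

open Finset
open scoped Classical
open scoped Matrix

namespace Pool.Agent.Helper94.CoclassI4

open Pool.Agent.Helper11.Coclass

/-- continuous additive maps between `ℤ_p`-lattices are `ℤ_p`-linear -/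
theorem map_smul_of_continuous {p : ℕ} [Fact p.Prime] {d e : ℕ}
    (F : (Fin d → ℤ_[p]) → (Fin e → ℤ_[p])) (hF : Continuous F)
    (hadd : ∀ x y, F (x + y) = F x + F y) (c : ℤ_[p]) (x : Fin d → ℤ_[p]) :
    F (c • x) = c • F x := by
  let G : (Fin d → ℤ_[p]) →+ (Fin e → ℤ_[p]) := AddMonoidHom.mk' F hadd
  have h : (fun c : ℤ_[p] => F (c • x)) = fun c => c • F x := by
    refine DenseRange.equalizer PadicInt.denseRange_intCast
      (hF.comp (continuous_id.smul continuous_const)) (continuous_id.smul continuous_const) ?_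
    funext n
    have h1 := map_zsmul G n x
    simp only [Function.comp]
    rw [Int.cast_smul_eq_zsmul, Int.cast_smul_eq_zsmul]
    exact h1
  exact congrFun h c

/-- coordinates on a space group -/
structure Model (p : ℕ) [Fact p.Prime] (d : ℕ) (P : Type) [Group P] (R : Type) [Group R]
    [TopologicalSpace R] where
  e : R ≃ (Fin d → ℤ_[p]) × P
  ρ : P → Matrix (Fin d) (Fin d) ℤ_[p]
  f : P → P → (Fin d → ℤ_[p])
  e_mul : ∀ a b : R, e (a * b) =
    ((e a).1 + ρ (e a).2 *ᵥ (e b).1 + f (e a).2 (e b).2, (e a).2 * (e b).2)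
  cont1 : Continuous fun a => (e a).1
  cont2 : ∀ g, IsOpen {a | (e a).2 = g}
  cont3 : ∀ g, Continuous fun x => e.symm (x, g)

namespace Model

variable {p : ℕ} [Fact p.Prime] {d : ℕ} {P : Type} [Group P] {R : Type} [Group R]
  [TopologicalSpace R] (A : Model p d P R)

theorem symm_mul (x y : Fin d → ℤ_[p]) (g h : P) :
    A.e.symm (x, g) * A.e.symm (y, h) = A.e.symm (x + A.ρ g *ᵥ y + A.f g h, g * h) := by
  apply A.e.injective
  rw [A.e_mul]
  simp

theorem assoc_law (z : Fin d → ℤ_[p]) (g h k : P) :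
    A.f g h + A.ρ (g * h) *ᵥ z + A.f (g * h) k =
      A.ρ g *ᵥ (A.ρ h *ᵥ z + A.f h k) + A.f g (h * k) := by
  have h1 := mul_assoc (A.e.symm (0, g)) (A.e.symm (0, h)) (A.e.symm (z, k))
  rw [symm_mul, symm_mul, symm_mul, symm_mul] at h1
  have h2 := (Prod.ext_iff.1 (A.e.symm.injective h1)).1
  simpa using h2

theorem cocycle (g h k : P) : A.f g h + A.f (g * h) k = A.ρ g *ᵥ A.f h k + A.f g (h * k) := by
  have := A.assoc_law 0 g h k
  simpa using this

theorem rho_mul (g h : P) : A.ρ (g * h) = A.ρ g * A.ρ h := by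
  apply Matrix.ext_iff_mulVec.2
  intro z
  have h1 := A.assoc_law z g h 1
  have h2 := A.cocycle g h 1
  rw [Matrix.mulVec_add] at h1
  rw [← Matrix.mulVec_mulVec]
  have h3 : A.f g h + A.ρ (g * h) *ᵥ z + A.f (g * h) 1 =
    A.ρ (g * h) *ᵥ z + (A.f g h + A.f (g * h) 1) := by abel
  rw [h3, h2] at h1
  have h4 : A.ρ g *ᵥ A.ρ h *ᵥ z + A.ρ g *ᵥ A.f h 1 + A.f g (h * 1) =
    A.ρ g *ᵥ A.ρ h *ᵥ z + (A.ρ g *ᵥ A.f h 1 + A.f g (h * 1)) := by abel
  rw [h4] at h1
  exact add_right_cancel h1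

theorem rho_one : A.ρ 1 = 1 := by
  have h0 : (A.e 1).2 = 1 := by
    have := A.e_mul 1 1
    rw [one_mul] at this
    have h1 := (Prod.ext_iff.1 this).2
    simpa using h1
  have h1 : ∀ y : Fin d → ℤ_[p], (A.e 1).1 + A.ρ 1 *ᵥ y + A.f 1 1 = y := by
    intro y
    have := A.e_mul 1 (A.e.symm (y, 1))
    rw [one_mul, A.e.apply_symm_apply] at this
    have h2 := (Prod.ext_iff.1 this).1
    simp only [h0] at h2
    exact h2.symm
  apply Matrix.ext_iff_mulVec.2
  intro y
  have h2 := h1 y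
  have h3 := h1 0
  rw [Matrix.mulVec_zero, add_zero] at h3
  rw [Matrix.one_mulVec]
  have h4 : (A.e 1).1 + A.ρ 1 *ᵥ y + A.f 1 1 = A.ρ 1 *ᵥ y + ((A.e 1).1 + A.f 1 1) := by abel
  rw [h4, h3, add_zero] at h2
  exact h2

/-- transport along an isomorphism of point groups -/
def map {P' : Type} [Group P'] (θ : P' ≃* P) : Model p d P' R where
  e := A.e.trans (Equiv.prodCongr (Equiv.refl _) θ.symm.toEquiv)
  ρ g := A.ρ (θ g)
  f g h := A.f (θ g) (θ h)
  e_mul a b := by
    have := A.e_mul a b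
    simp only [Equiv.trans_apply, Equiv.prodCongr_apply, this, Prod.map, Equiv.refl_apply,
      MulEquiv.toEquiv_eq_coe, MulEquiv.coe_toEquiv, MulEquiv.apply_symm_apply, map_mul]
  cont1 := A.cont1
  cont2 g := by
    have h : {a : R | ((A.e.trans (Equiv.prodCongr (Equiv.refl _) θ.symm.toEquiv)) a).2 = g} =
        {a | (A.e a).2 = θ g} := by
      ext a
      simp only [Set.mem_ofPred_eq, Equiv.trans_apply, Equiv.prodCongr_apply, Prod.map,
        MulEquiv.toEquiv_eq_coe, MulEquiv.coe_toEquiv]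
      exact θ.symm_apply_eq
    rw [h]
    exact A.cont2 (θ g)
  cont3 g := by
    have h := A.cont3 (θ g)
    exact h

end Model

section construct

variable {p : ℕ} [Fact p.Prime]

theorem exists_model (R : Type) [Group R] [TopologicalSpace R] [IsTopologicalGroup R]
    (T : Subgroup R) [T.Normal] (d : ℕ) (h : IsSpaceGroup p R T d) :
    Nonempty (Model p d (R ⧸ T) R) := by
  obtain ⟨φ⟩ := h.lattice
  have hfin := h.finite_quotient
  have hfi : T.FiniteIndex := Subgroup.finiteIndex_of_finite_quotient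
  have hopen : IsOpen (T : Set R) := T.isOpen_of_isClosed_of_finiteIndex h.closed
  set t : R ⧸ T → R := Quotient.out with ht
  have htm : ∀ g : R ⧸ T, (QuotientGroup.mk (t g) : R ⧸ T) = g := fun g => Quotient.out_eq g
  have hT : ∀ a : R, a * (t (QuotientGroup.mk a))⁻¹ ∈ T := by
    intro a
    rw [← QuotientGroup.eq_one_iff (N := T), QuotientGroup.mk_mul, QuotientGroup.mk_inv, htm,
      mul_inv_cancel]
  have hf : ∀ g h : R ⧸ T, t g * t h * (t (g * h))⁻¹ ∈ T := by
    intro g h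
    rw [← QuotientGroup.eq_one_iff (N := T), QuotientGroup.mk_mul, QuotientGroup.mk_mul,
      QuotientGroup.mk_inv, htm, htm, htm, mul_inv_cancel]
  -- the action
  set F : (R ⧸ T) → (Fin d → ℤ_[p]) → (Fin d → ℤ_[p]) := fun g x =>
    (φ ⟨t g * (φ.symm (Multiplicative.ofAdd x) : T) * (t g)⁻¹,
      Subgroup.Normal.conj_mem inferInstance _ (SetLike.coe_mem _) _⟩).toAdd with hF
  have hFc : ∀ g, Continuous (F g) := by
    intro g
    refine continuous_toAdd.comp (φ.continuous.comp ?_)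
    refine Continuous.subtype_mk ?_ _
    exact (continuous_const.mul (continuous_subtype_val.comp
      (φ.symm.continuous.comp continuous_ofAdd))).mul continuous_const
  have hFadd : ∀ g x y, F g (x + y) = F g x + F g y := by
    intro g x y
    simp only [hF]
    rw [← toAdd_mul, ← map_mul]
    congr 2
    apply Subtype.ext
    simp only [ofAdd_add, map_mul, Subgroup.coe_mul]
    group
  have hFl : ∀ g (c : ℤ_[p]) x, F g (c • x) = c • F g x := fun g c x =>
    map_smul_of_continuous (F g) (hFc g) (hFadd g) c x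
  set L : (R ⧸ T) → ((Fin d → ℤ_[p]) →ₗ[ℤ_[p]] (Fin d → ℤ_[p])) := fun g =>
    { toFun := F g, map_add' := hFadd g, map_smul' := fun c x => hFl g c x } with hL
  have hLF : ∀ g x, (LinearMap.toMatrix' (L g)) *ᵥ x = F g x := by
    intro g x
    rw [← Matrix.toLin'_apply, Matrix.toLin'_toMatrix']
    rfl
  have hconj : ∀ g x, t g * (φ.symm (Multiplicative.ofAdd x) : T) =
      (φ.symm (Multiplicative.ofAdd (F g x)) : T) * t g := by
    intro g x
    simp only [hF, ofAdd_toAdd, ContinuousMulEquiv.symm_apply_apply]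
    group
  have hdisc : DiscreteTopology (R ⧸ T) := QuotientGroup.discreteTopology hopen
  have hmkc : Continuous fun a : R => (QuotientGroup.mk a : R ⧸ T) := continuous_quot_mk
  have htc : Continuous fun a : R => t (QuotientGroup.mk a) :=
    continuous_of_discreteTopology.comp hmkc
  refine ⟨{
    e := {
      toFun := fun a => ((φ ⟨a * (t (QuotientGroup.mk a))⁻¹, hT a⟩).toAdd, QuotientGroup.mk a)
      invFun := fun z => (φ.symm (Multiplicative.ofAdd z.1) : T) * t z.2
      left_inv := ?_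
      right_inv := ?_ }
    ρ := fun g => LinearMap.toMatrix' (L g)
    f := fun g h => (φ ⟨t g * t h * (t (g * h))⁻¹, hf g h⟩).toAdd
    e_mul := ?_
    cont1 := ?_
    cont2 := ?_
    cont3 := ?_ }⟩
  · intro a
    simp only [ofAdd_toAdd, ContinuousMulEquiv.symm_apply_apply]
    group
  · rintro ⟨x, g⟩
    have hmk : (QuotientGroup.mk (((φ.symm (Multiplicative.ofAdd x) : T) : R) * t g) : R ⧸ T) =
        g := by
      rw [QuotientGroup.mk_mul, htm, (QuotientGroup.eq_one_iff _).2 (SetLike.coe_mem _), one_mul]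
    refine Prod.ext ?_ hmk
    change (φ ⟨_, _⟩).toAdd = x
    have : (⟨((φ.symm (Multiplicative.ofAdd x) : T) : R) * t g *
        (t (QuotientGroup.mk (((φ.symm (Multiplicative.ofAdd x) : T) : R) * t g)))⁻¹, hT _⟩ : T) =
        φ.symm (Multiplicative.ofAdd x) := by
      apply Subtype.ext
      simp only [hmk]
      group
    rw [this, ContinuousMulEquiv.apply_symm_apply, toAdd_ofAdd]
  · intro a b
    refine Prod.ext ?_ rfl
    change (φ ⟨_, _⟩).toAdd = (φ ⟨_, _⟩).toAdd + LinearMap.toMatrix' (L (QuotientGroup.mk a)) *ᵥ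
      (φ ⟨_, _⟩).toAdd + (φ ⟨_, _⟩).toAdd
    rw [hLF]
    simp only [hF]
    rw [← toAdd_mul, ← toAdd_mul, ← map_mul, ← map_mul]
    congr 2
    apply Subtype.ext
    simp only [Equiv.coe_fn_mk, ofAdd_toAdd, ContinuousMulEquiv.symm_apply_apply,
      Subgroup.coe_mul, QuotientGroup.mk_mul]
    group
  · exact continuous_toAdd.comp (φ.continuous.comp
      (Continuous.subtype_mk (continuous_id.mul htc.inv) _))
  · intro g
    exact (isOpen_discrete {g}).preimage hmkc
  · intro g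
    have hc : Continuous fun _ : (Fin d → ℤ_[p]) => t g := continuous_const
    exact (continuous_subtype_val.comp (φ.symm.continuous.comp continuous_ofAdd)).mul hc

end construct

section compare

variable {p : ℕ} [Fact p.Prime] {d : ℕ}

/-- matrices that are the identity modulo `p` are invertible -/
theorem isUnit_of_congr_one (Z : Matrix (Fin d) (Fin d) ℤ_[p]) (c : ℤ_[p]) :
    IsUnit (1 + (c * p) • Z) := by
  rw [Matrix.isUnit_iff_isUnit_det]
  by_contra hcon
  have h1 : (1 + (c * (p : ℤ_[p])) • Z).det ∈ IsLocalRing.maximalIdeal ℤ_[p] :=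
    (IsLocalRing.mem_maximalIdeal _).2 hcon
  rw [← PadicInt.ker_toZMod, RingHom.mem_ker, RingHom.map_det] at h1
  have h2 : (PadicInt.toZMod (p := p)).mapMatrix (1 + (c * (p : ℤ_[p])) • Z) = 1 := by
    ext i j
    simp only [RingHom.mapMatrix_apply, Matrix.map_apply, Matrix.add_apply, Matrix.smul_apply,
      smul_eq_mul, map_add, map_mul, map_natCast, CharP.cast_eq_zero, mul_zero, zero_mul, add_zero]
    rw [Matrix.one_apply, Matrix.one_apply]
    split_ifs <;> simp
  rw [h2, Matrix.det_one] at h1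
  exact one_ne_zero h1

theorem exists_intertwiner {P : Type} [Group P] [Finite P] (ρ ρ' : P → Matrix (Fin d) (Fin d) ℤ_[p])
    (h1 : ρ 1 = 1) (hm : ∀ g h, ρ (g * h) = ρ g * ρ h) (hm' : ∀ g h, ρ' (g * h) = ρ' g * ρ' h)
    (hc : ∀ g i j, ((Nat.card P : ℤ_[p]) ^ 2 * p) ∣ ρ' g i j - ρ g i j) :
    ∃ Z : Matrix (Fin d) (Fin d) ℤ_[p], ∀ h,
      ρ' h * (1 + ((Nat.card P : ℤ_[p]) * p) • Z) =
        (1 + ((Nat.card P : ℤ_[p]) * p) • Z) * ρ h := by
  have := Fintype.ofFinite P
  set N : ℤ_[p] := (Nat.card P : ℤ_[p]) with hN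
  have hN0 : N ≠ 0 := by
    rw [hN]
    exact_mod_cast Nat.card_pos.ne'
  choose Y hY using hc
  set Y' : P → Matrix (Fin d) (Fin d) ℤ_[p] := fun g => Matrix.of fun i j => Y g i j with hY'
  have e1 : ∀ g, ρ' g = ρ g + (N ^ 2 * p) • Y' g := by
    intro g
    ext i j
    simp only [hY', Matrix.add_apply, Matrix.smul_apply, Matrix.of_apply, smul_eq_mul]
    rw [← hY]; ring
  refine ⟨∑ g, Y' g * ρ g⁻¹, fun h => ?_⟩
  set A : Matrix (Fin d) (Fin d) ℤ_[p] := 1 + (N * p) • ∑ g, Y' g * ρ g⁻¹ with hA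
  have e2 : ∑ g, ρ' g * ρ g⁻¹ = N • A := by
    have : ∀ g, ρ' g * ρ g⁻¹ = 1 + (N ^ 2 * p) • (Y' g * ρ g⁻¹) := by
      intro g
      rw [e1, add_mul, ← hm, mul_inv_cancel, h1, smul_mul_assoc]
    simp_rw [this]
    rw [sum_add_distrib, sum_const, card_univ, ← smul_sum, hA, smul_add, smul_smul]
    congr 1
    · rw [hN, Nat.card_eq_fintype_card, Nat.cast_smul_eq_nsmul]
    · congr 1; ring
  have e3 : ρ' h * ∑ g, ρ' g * ρ g⁻¹ = (∑ g, ρ' g * ρ g⁻¹) * ρ h := by
    rw [mul_sum, sum_mul, ← Equiv.sum_comp (Equiv.mulLeft h) (fun g => ρ' g * ρ g⁻¹ * ρ h)]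
    refine sum_congr rfl fun g _ => ?_
    simp only [Equiv.coe_mulLeft]
    rw [hm', mul_assoc (ρ' h * ρ' g), ← hm, mul_inv_rev, inv_mul_cancel_right, mul_assoc]
  rw [e2, mul_smul_comm, smul_mul_assoc] at e3
  exact smul_right_injective _ hN0 e3

theorem exists_cochain {P : Type} [Group P] [Finite P] (ρ' : P → Matrix (Fin d) (Fin d) ℤ_[p])
    (F : P → P → (Fin d → ℤ_[p]))
    (hco : ∀ g h k, F g h + F (g * h) k = ρ' g *ᵥ F h k + F g (h * k))
    (hc : ∀ g h i, (Nat.card P : ℤ_[p]) ∣ F g h i) :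
    ∃ c : P → (Fin d → ℤ_[p]), ∀ g h, F g h = c g + ρ' g *ᵥ c h - c (g * h) := by
  have := Fintype.ofFinite P
  set N : ℤ_[p] := (Nat.card P : ℤ_[p]) with hN
  have hN0 : N ≠ 0 := by
    rw [hN]
    exact_mod_cast Nat.card_pos.ne'
  choose Y hY using hc
  have e1 : ∀ g h, F g h = N • Y g h := by
    intro g h; funext i; rw [hY]; rfl
  have e2 : ∀ g h k, Y g h + Y (g * h) k = ρ' g *ᵥ Y h k + Y g (h * k) := by
    intro g h k
    have := hco g h k
    rw [e1, e1, e1, e1, Matrix.mulVec_smul, ← smul_add, ← smul_add] at this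
    exact smul_right_injective _ hN0 this
  refine ⟨fun g => ∑ k, Y g k, fun g h => ?_⟩
  have e3 : ∑ k, (Y g h + Y (g * h) k) = ∑ k, (ρ' g *ᵥ Y h k + Y g (h * k)) :=
    sum_congr rfl fun k _ => e2 g h k
  have e5 : ∑ k, Y g (h * k) = ∑ k, Y g k := Equiv.sum_comp (Equiv.mulLeft h) (fun k => Y g k)
  have e6 : ∑ k, ρ' g *ᵥ Y h k = ρ' g *ᵥ ∑ k, Y h k :=
    (map_sum (Matrix.mulVecLin (ρ' g)) (fun k => Y h k) univ).symm
  rw [sum_add_distrib, sum_add_distrib, sum_const, card_univ, e5, e6] at e3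
  rw [e1]
  have e4 : N • Y g h = Fintype.card P • Y g h := by
    rw [hN, Nat.card_eq_fintype_card, Nat.cast_smul_eq_nsmul]
  rw [e4, eq_sub_iff_add_eq, e3]
  abel

theorem iso_of_congr {P : Type} [Group P] [Finite P] {R R' : Type} [Group R] [Group R']
    [TopologicalSpace R] [TopologicalSpace R'] [CompactSpace R] [T2Space R']
    (A : Model p d P R) (B : Model p d P R')
    (hρ : ∀ g i j, ((Nat.card P : ℤ_[p]) ^ 2 * p) ∣ B.ρ g i j - A.ρ g i j)
    (hf : ∀ g h i, (Nat.card P : ℤ_[p]) ∣ B.f g h i - A.f g h i) : Nonempty (R ≃ₜ* R') := by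
  obtain ⟨Z, hZ⟩ := exists_intertwiner A.ρ B.ρ A.rho_one A.rho_mul B.rho_mul hρ
  set N : ℤ_[p] := (Nat.card P : ℤ_[p]) with hN
  set M : Matrix (Fin d) (Fin d) ℤ_[p] := 1 + (N * p) • Z with hM
  obtain ⟨u, hu⟩ : IsUnit M := isUnit_of_congr_one Z N
  set F : P → P → (Fin d → ℤ_[p]) := fun g h => M *ᵥ A.f g h - B.f g h with hF
  have hco : ∀ g h k, F g h + F (g * h) k = B.ρ g *ᵥ F h k + F g (h * k) := by
    intro g h k
    simp only [hF]
    have h1 := A.cocycle g h k
    have h2 := B.cocycle g h k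
    have h3 : M *ᵥ A.f g h + M *ᵥ A.f (g * h) k =
        B.ρ g *ᵥ (M *ᵥ A.f h k) + M *ᵥ A.f g (h * k) := by
      rw [← Matrix.mulVec_add, h1, Matrix.mulVec_add, Matrix.mulVec_mulVec, Matrix.mulVec_mulVec,
        hZ]
    rw [Matrix.mulVec_sub]
    calc M *ᵥ A.f g h - B.f g h + (M *ᵥ A.f (g * h) k - B.f (g * h) k) =
        (M *ᵥ A.f g h + M *ᵥ A.f (g * h) k) - (B.f g h + B.f (g * h) k) := by abel
      _ = _ := by rw [h3, h2]; abel
  have hcd : ∀ g h i, (Nat.card P : ℤ_[p]) ∣ F g h i := by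
    intro g h i
    have : F g h i = N * (p * (Z *ᵥ A.f g h) i) - (B.f g h i - A.f g h i) := by
      simp only [hF, hM, Pi.sub_apply, Matrix.add_mulVec, Matrix.one_mulVec, Matrix.smul_mulVec,
        Pi.add_apply, Pi.smul_apply, smul_eq_mul]
      ring
    rw [this]
    exact dvd_sub (dvd_mul_right _ _) (hf g h i)
  obtain ⟨c, hc⟩ := exists_cochain B.ρ F hco hcd
  have hc' : ∀ g h, M *ᵥ A.f g h + c (g * h) = c g + B.ρ g *ᵥ c h + B.f g h := by
    intro g h
    have := hc g h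
    simp only [hF] at this
    rw [sub_eq_iff_eq_add] at this
    rw [this]; abel
  have hui : ∀ x, (u⁻¹ : (Matrix (Fin d) (Fin d) ℤ_[p])ˣ).1 *ᵥ (M *ᵥ x) = x := by
    intro x
    rw [Matrix.mulVec_mulVec, ← hu, Units.inv_mul, Matrix.one_mulVec]
  have hiu : ∀ x, M *ᵥ ((u⁻¹ : (Matrix (Fin d) (Fin d) ℤ_[p])ˣ).1 *ᵥ x) = x := by
    intro x
    rw [Matrix.mulVec_mulVec, ← hu, Units.mul_inv, Matrix.one_mulVec]
  let E : (Fin d → ℤ_[p]) × P ≃ (Fin d → ℤ_[p]) × P :=
    { toFun := fun z => (M *ᵥ z.1 + c z.2, z.2)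
      invFun := fun z => ((u⁻¹ : (Matrix (Fin d) (Fin d) ℤ_[p])ˣ).1 *ᵥ (z.1 - c z.2), z.2)
      left_inv := fun z => by simp only [add_sub_cancel_right, hui]
      right_inv := fun z => by simp only [hiu, sub_add_cancel] }
  let Ψ : R ≃ R' := (A.e.trans E).trans B.e.symm
  have hΨ : ∀ a, Ψ a = B.e.symm (M *ᵥ (A.e a).1 + c (A.e a).2, (A.e a).2) := fun a => rfl
  have hmul : ∀ a b, Ψ (a * b) = Ψ a * Ψ b := by
    intro a b
    rw [hΨ, hΨ, hΨ, B.symm_mul, A.e_mul]
    congr 1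
    refine Prod.ext ?_ rfl
    simp only
    rw [Matrix.mulVec_add, Matrix.mulVec_add, Matrix.mulVec_mulVec, ← hZ, Matrix.mulVec_add,
      Matrix.mulVec_mulVec]
    have := hc' (A.e a).2 (A.e b).2
    calc M *ᵥ (A.e a).1 + (B.ρ (A.e a).2 * M) *ᵥ (A.e b).1 + M *ᵥ A.f (A.e a).2 (A.e b).2 +
          c ((A.e a).2 * (A.e b).2) = M *ᵥ (A.e a).1 + (B.ρ (A.e a).2 * M) *ᵥ (A.e b).1 +
          (M *ᵥ A.f (A.e a).2 (A.e b).2 + c ((A.e a).2 * (A.e b).2)) := by abel
      _ = _ := by rw [this]; abel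
  have hcont : Continuous Ψ := by
    rw [continuous_iff_continuousAt]
    intro a
    have hev : (fun x => B.e.symm (M *ᵥ (A.e x).1 + c (A.e a).2, (A.e a).2)) =ᶠ[nhds a] Ψ := by
      filter_upwards [(A.cont2 (A.e a).2).mem_nhds rfl] with x hx
      rw [hΨ, show (A.e x).2 = (A.e a).2 from hx]
    refine ContinuousAt.congr ?_ hev
    refine Continuous.continuousAt ((B.cont3 (A.e a).2).comp ?_)
    exact (Continuous.matrix_mulVec continuous_const A.cont1).add continuous_const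
  let H : R ≃ₜ R' := hcont.homeoOfEquivCompactToT2
  exact ⟨{ toMulEquiv := { toEquiv := Ψ, map_mul' := hmul }
           continuous_toFun := hcont
           continuous_invFun := H.continuous_invFun }⟩

end compare

/-- **I4.** Point groups of bounded order and bounded dimension: infinitely many space groups
contain two isomorphic ones. -/
theorem I4 (p : ℕ) [Fact p.Prime] (N : ℕ) (R : ℕ → Type) [∀ n, Group (R n)]
    [∀ n, TopologicalSpace (R n)] [∀ n, IsTopologicalGroup (R n)] (T : ∀ n, Subgroup (R n))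
    [∀ n, (T n).Normal] (d : ℕ → ℕ) (h : ∀ n, IsSpaceGroup p (R n) (T n) (d n))
    (hcard : ∀ n, Nat.card (R n ⧸ T n) ≤ N) (hd : ∀ n, d n ≤ N) :
    ∃ i j, i < j ∧ Nonempty (R i ≃ₜ* R j) := by
  obtain ⟨⟨m, D⟩, hinf⟩ := Finite.exists_infinite_fiber
    (fun n => ((⟨Nat.card (R n ⧸ T n), Nat.lt_succ_of_le (hcard n)⟩ : Fin (N + 1)),
      (⟨d n, Nat.lt_succ_of_le (hd n)⟩ : Fin (N + 1))))
  obtain ⟨m, hmN⟩ := m
  obtain ⟨D, hDN⟩ := D
  set I : Set ℕ := (fun n => ((⟨Nat.card (R n ⧸ T n), Nat.lt_succ_of_le (hcard n)⟩ : Fin (N + 1)),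
      (⟨d n, Nat.lt_succ_of_le (hd n)⟩ : Fin (N + 1)))) ⁻¹' {(⟨m, hmN⟩, ⟨D, hDN⟩)} with hI
  have hI1 : ∀ n : I, Nat.card (R n ⧸ T n) = m ∧ d n = D := by
    rintro ⟨n, hn⟩
    simp only [hI, Set.mem_preimage, Set.mem_singleton_iff, Prod.ext_iff, Fin.ext_iff] at hn
    exact hn
  have hfin : ∀ n, Finite (R n ⧸ T n) := fun n => (h n).finite_quotient
  have hmod : ∀ n : I, Nonempty (Model p D (R n ⧸ T n) (R n)) := by
    intro n
    have := h n
    rw [(hI1 n).2] at this
    exact exists_model (R n) (T n) D this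
  let A := fun n => (hmod n).some
  have he : ∀ n : I, Nonempty ((R n ⧸ T n) ≃ Fin m) := fun n =>
    ⟨Finite.equivFinOfCardEq (hI1 n).1⟩
  let e := fun n => (he n).some
  -- the modulus
  obtain ⟨n0⟩ : Nonempty I := inferInstance
  have hm0 : m ≠ 0 := by
    rw [← (hI1 n0).1]
    exact Nat.card_pos.ne'
  set c : ℤ_[p] := (m : ℤ_[p]) ^ 2 * p with hc
  have hc0 : c ≠ 0 := by
    rw [hc]
    refine mul_ne_zero (pow_ne_zero _ (by exact_mod_cast hm0)) ?_
    exact_mod_cast (Fact.out : p.Prime).ne_zero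
  set K : ℕ := c.valuation with hK
  have hcK : c ∣ (p : ℤ_[p]) ^ K := by
    have hspec := PadicInt.unitCoeff_spec hc0
    generalize PadicInt.unitCoeff hc0 = v at hspec
    refine ⟨((v⁻¹ : ℤ_[p]ˣ) : ℤ_[p]), ?_⟩
    have h1 : c * ((v⁻¹ : ℤ_[p]ˣ) : ℤ_[p]) =
        ((v : ℤ_[p]) * (p : ℤ_[p]) ^ K) * ((v⁻¹ : ℤ_[p]ˣ) : ℤ_[p]) := congrArg (· * _) hspec
    rw [h1, mul_right_comm, Units.mul_inv, one_mul]
  have hdvd : ∀ x y : ℤ_[p], PadicInt.toZModPow K x = PadicInt.toZModPow K y → c ∣ y - x := by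
    intro x y hxy
    refine hcK.trans ?_
    rw [← Ideal.mem_span_singleton, ← PadicInt.ker_toZModPow, RingHom.mem_ker, map_sub, hxy,
      sub_self]
  have hne : NeZero (p ^ K) := ⟨pow_ne_zero _ (Fact.out : p.Prime).ne_zero⟩
  obtain ⟨i, j, hij, hcode⟩ := Finite.exists_ne_map_eq_of_infinite
    (fun n : I => ((fun a b => e n ((e n).symm a * (e n).symm b) : Fin m → Fin m → Fin m),
      (fun a r s => PadicInt.toZModPow K ((A n).ρ ((e n).symm a) r s) :
        Fin m → Fin D → Fin D → ZMod (p ^ K)),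
      (fun a b r => PadicInt.toZModPow K ((A n).f ((e n).symm a) ((e n).symm b) r) :
        Fin m → Fin m → Fin D → ZMod (p ^ K))))
  simp only [Prod.ext_iff] at hcode
  obtain ⟨hc1, hc2, hc3⟩ := hcode
  let θ : (R i ⧸ T i) ≃* (R j ⧸ T j) :=
    { toEquiv := (e i).trans (e j).symm
      map_mul' := by
        intro x y
        have := congrFun (congrFun hc1 (e i x)) (e i y)
        simp only [Equiv.symm_apply_apply] at this
        simp only [Equiv.toFun_as_coe, Equiv.trans_apply]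
        rw [this, Equiv.symm_apply_apply] }
  have hθ : ∀ x, θ x = (e j).symm (e i x) := fun x => rfl
  have hcomp : CompactSpace (R i) := (h i).compact
  have hT2 : T2Space (R j) := (h j).hausdorff
  have hiso : Nonempty (R i ≃ₜ* R j) := by
    refine iso_of_congr (A i) ((A j).map θ) ?_ ?_
    · intro g r s
      rw [(hI1 i).1]
      refine hdvd _ _ ?_
      have := congrFun (congrFun (congrFun hc2 (e i g)) r) s
      simp only [Equiv.symm_apply_apply] at this
      rw [this]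
      rfl
    · intro g k r
      rw [(hI1 i).1]
      refine dvd_trans ?_ (hdvd _ _ ?_)
      · rw [hc, sq, mul_assoc]; exact dvd_mul_right _ _
      · have := congrFun (congrFun (congrFun hc3 (e i g)) (e i k)) r
        simp only [Equiv.symm_apply_apply] at this
        rw [this]
        rfl
  rcases lt_or_gt_of_ne (fun h => hij (Subtype.ext h) : (i : ℕ) ≠ j) with hlt | hlt
  · exact ⟨i, j, hlt, hiso⟩
  · exact ⟨j, i, hlt, hiso.map ContinuousMulEquiv.symm⟩

end Pool.Agent.Helper94.CoclassI4
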