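import Pool.Agent.Helper47.Manh.Main

/-!
Bridge between the random walk in the randomly oriented Manhattan lattice on `ℤ × ℤ` (infinite
product of fair coins) and the finite sample space of `Helper47.Manh`.
-/

set_option autoImplicit false

open MeasureTheory Pool.Agent.Helper47.Manh

namespace Pool.Agent.Helper94.ManhBridge

/-- fair coin -/
noncomputable abbrev coin : Measure Bool := (PMF.uniformOfFintype Bool).toMeasure

theorem coin_singleton (b : Bool) : coin {b} = (2 : ENNReal)⁻¹ := by
  unfold coin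
  rw [PMF.toMeasure_apply_singleton _ _ (measurableSet_singleton b)]
  simp [PMF.uniformOfFintype_apply]

/-- a function of finitely many coordinates of an infinite sequence of fair coins -/
theorem integral_comp {I J : Type} [Fintype J] [DecidableEq J] (ι : J → I) (hι : Function.Injective ι)
    (f : (J → Bool) → ℝ) :
    ∫ w : I → Bool, f (fun j => w (ι j)) ∂(Measure.infinitePi (fun _ : I => coin)) =
      (∑ x : J → Bool, f x) / (Fintype.card (J → Bool) : ℝ) := by
  classical
  set μ : Measure (I → Bool) := Measure.infinitePi (fun _ : I => coin) with hμ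
  let Φ : (I → Bool) → (J → Bool) := fun w j => w (ι j)
  have hΦ : Measurable Φ := by
    refine measurable_pi_lambda _ (fun j => measurable_pi_apply (ι j))
  have hf : Measurable f := measurable_of_finite f
  have h1 : ∫ w : I → Bool, f (fun j => w (ι j)) ∂μ = ∫ x, f x ∂(μ.map Φ) := by
    rw [integral_map hΦ.aemeasurable hf.aestronglyMeasurable]
  have : IsProbabilityMeasure (μ.map Φ) := Measure.isProbabilityMeasure_map hΦ.aemeasurable
  have hint : Integrable f (μ.map Φ) := Integrable.of_finite
  rw [h1, integral_fintype hint, Finset.sum_div]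
  refine Finset.sum_congr rfl fun x _ => ?_
  have h2 : (μ.map Φ) {x} = ((2 : ENNReal)⁻¹) ^ (Fintype.card J) := by
    rw [Measure.map_apply hΦ (measurableSet_singleton x)]
    let t : I → Set Bool := fun i => {b | ∀ j, ι j = i → b = x j}
    have h3 : Φ ⁻¹' {x} = Set.pi (↑(Finset.univ.image ι)) t := by
      ext w
      simp only [Set.mem_preimage, Set.mem_singleton_iff, Set.mem_pi, Finset.coe_image,
        Finset.coe_univ, Set.image_univ, Set.mem_range, t, Set.mem_ofPred_eq]
      constructor
      · rintro h i ⟨j, rfl⟩ j' hj'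
        have := congrFun h j'
        rw [← this]
        show w (ι j) = w (ι j')
        rw [hj']
      · intro h
        funext j
        exact h (ι j) ⟨j, rfl⟩ j rfl
    rw [h3, hμ, Measure.infinitePi_pi _ (fun i _ => (Set.toFinite _).measurableSet),
      Finset.prod_image (fun a _ b _ h => hι h)]
    have h4 : ∀ j : J, coin (t (ι j)) = (2 : ENNReal)⁻¹ := by
      intro j
      have : t (ι j) = {x j} := by
        ext b
        simp only [t, Set.mem_ofPred_eq, Set.mem_singleton_iff]
        constructor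
        · intro h; exact h j rfl
        · intro h j' hj'
          rw [h, hι hj']
      rw [this, coin_singleton]
    rw [Finset.prod_congr rfl (fun j _ => h4 j), Finset.prod_const, Finset.card_univ]
  have h5 : (μ.map Φ).real {x} = ((2 : ℝ)⁻¹) ^ (Fintype.card J) := by
    rw [Measure.real, h2, ENNReal.toReal_pow, ENNReal.toReal_inv]
    simp
  rw [h5, smul_eq_mul]
  have h6 : (Fintype.card (J → Bool) : ℝ) = 2 ^ (Fintype.card J) := by
    rw [Fintype.card_fun, Fintype.card_bool]
    push_cast
    rfl
  rw [h6, inv_pow, div_eq_inv_mul]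

/-- the coordinates seen by the walk up to time `T` -/
def emb (N T : ℕ) : Fin T ⊕ (ZMod N ⊕ ZMod N) → ℕ ⊕ (ℤ ⊕ ℤ)
  | Sum.inl i => Sum.inl i.val
  | Sum.inr (Sum.inl z) => Sum.inr (Sum.inl z.valMinAbs)
  | Sum.inr (Sum.inr z) => Sum.inr (Sum.inr z.valMinAbs)

theorem emb_injective (N T : ℕ) : Function.Injective (emb N T) := by
  have h : ∀ a b : ZMod N, a.valMinAbs = b.valMinAbs → a = b := fun a b hab => by
    rw [← ZMod.coe_valMinAbs a, hab, ZMod.coe_valMinAbs]
  rintro (a | a | a) (b | b | b) hab <;> simp only [emb, Sum.inl.injEq, Sum.inr.injEq,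
    reduceCtorEq] at hab ⊢
  · exact Fin.ext hab
  · exact h _ _ hab
  · exact h _ _ hab

/-- reindexing of the finite sample space -/
def conv (N T : ℕ) : (Fin T ⊕ (ZMod N ⊕ ZMod N) → Bool) ≃ Om N T where
  toFun x := (fun z => x (Sum.inr (Sum.inl z)), fun z => x (Sum.inr (Sum.inr z)),
    fun i => x (Sum.inl i))
  invFun ω := Sum.elim ω.2.2 (Sum.elim ω.1 ω.2.1)
  left_inv x := by
    funext j
    rcases j with j | j | j <;> rfl
  right_inv ω := rfl

/-- the two walks agree up to time `T` -/
theorem walk_eq (N T : ℕ) [NeZero N] (hN : 2 * T < N) (h v : ℤ → Bool) (c : ℕ → Bool) (s : ℕ)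
    (hs : s ≤ T) : walk h v c s =
      walk (fun z : ZMod N => h z.valMinAbs) (fun z : ZMod N => v z.valMinAbs)
        (ext (fun i : Fin T => c i)) s := by
  induction s with
  | zero => rfl
  | succ s ih =>
    have ih := ih (by omega)
    rw [walk_succ, walk_succ, ← ih]
    have hb := walk_bound h v c s
    have hc : ext (fun i : Fin T => c i) s = c s := ext_of_lt _ s (by omega)
    have key : ∀ y : ℤ, y.natAbs ≤ s → ((y : ZMod N)).valMinAbs = y := by
      intro y hy
      rw [ZMod.valMinAbs_spec]
      refine ⟨rfl, ?_⟩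
      rw [Set.mem_Ioc]
      omega
    rw [hc, key _ (by omega), key _ (by omega)]
    simp only [Int.cast_id]

theorem bridge (N T : ℕ) [NeZero N] (hN : 2 * T < N) (F : (ℕ → ℤ × ℤ) → ℝ)
    (hF : ∀ p q : ℕ → ℤ × ℤ, (∀ s ≤ T, p s = q s) → F p = F q) :
    (∫ w : ℕ ⊕ (ℤ ⊕ ℤ) → Bool, F (fun n => walk (fun k : ℤ => w (Sum.inr (Sum.inl k)))
      (fun j : ℤ => w (Sum.inr (Sum.inr j))) (fun i => w (Sum.inl i)) n)
      ∂(Measure.infinitePi (fun _ : ℕ ⊕ (ℤ ⊕ ℤ) => (PMF.uniformOfFintype Bool).toMeasure))) =
      Av (N := N) (T := T) (fun w => F (pos w)) := by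
  have h1 : ∀ w : ℕ ⊕ (ℤ ⊕ ℤ) → Bool, F (fun n => walk (fun k : ℤ => w (Sum.inr (Sum.inl k)))
      (fun j : ℤ => w (Sum.inr (Sum.inr j))) (fun i => w (Sum.inl i)) n) =
      (fun x : Fin T ⊕ (ZMod N ⊕ ZMod N) → Bool => F (pos (conv N T x)))
        (fun j => w (emb N T j)) := by
    intro w
    refine hF _ _ (fun s hs => ?_)
    exact walk_eq N T hN _ _ _ s hs
  simp only [h1]
  rw [integral_comp (emb N T) (emb_injective N T)
    (fun x : Fin T ⊕ (ZMod N ⊕ ZMod N) → Bool => F (pos (conv N T x)))]
  unfold Av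
  rw [Fintype.card_congr (conv N T)]
  congr 1
  exact (conv N T).sum_comp (fun ω => F (pos ω))

end Pool.Agent.Helper94.ManhBridge
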