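import Pool.Agent.Helper94.SN.Final

set_option autoImplicit false

/-!
Exponential lower bound for approximating the number of models of a monotone 2-CNF, from the bits
that describe the formula, by symmetric networks (in particular symmetric circuits) with arbitrary
states, arbitrary update rules and any number of steps.
-/

namespace Pool.Agent.Results.MP_4ed1f9_lc.SymmetricNetworks

open Pool.Agent.Helper94.SN

/-- For every `n` and every group `Γ` of permutations of the `n` variables there are two monotone
2-CNFs `y` and `y'`, given by their clause bits, such that `y` has at least `2 ^ (n / 10 ^ 10)`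
times as many models as `y'`, but every network with `s` cells that is symmetric under `Γ`, where
`2 [S_n : Γ] s < 2 ^ (n / 10 ^ 10)`, has the same output on `y` and on `y'` at every time `t`. -/
theorem result (n : ℕ) (Γ : Subgroup (Equiv.Perm (Fin n))) :
    ∃ y y' : Sym2 (Fin n) → Bool,
      (2 : ℝ) ^ ((n : ℝ) / 10 ^ 10) * models n y' ≤ models n y ∧
      ∀ (s : ℕ) (S : Type) (C : Network n s S), C.IsSymmetric Γ →
        (2 * Γ.index * s : ℝ) < (2 : ℝ) ^ ((n : ℝ) / 10 ^ 10) →
        ∀ t, C.state y t C.out = C.state y' t C.out :=
  main n Γ

end Pool.Agent.Results.MP_4ed1f9_lc.SymmetricNetworks
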